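import Pool.Agent.Helper64.PNT.WI

/-!
# The prime number theorem, also in arithmetic progressions, and primes in short intervals
-/

set_option autoImplicit false

namespace Pool.Agent.Helper64.PNT

open MeasureTheory Filter Topology Set ArithmeticFunction ArithmeticFunction.vonMangoldt

/-- The prime number theorem for arithmetic progressions, for the function `ψ`. -/
theorem psi_ap {q : ℕ} [NeZero q] {a : ZMod q} (ha : IsUnit a) :
    Tendsto (fun x : ℝ => (∑ k ∈ Finset.Icc 1 ⌊x⌋₊, residueClass a k) / x) atTop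
      (𝓝 ((q.totient : ℝ)⁻¹)) := by
  apply wiener_ikehara (M := Real.log 4 + 4) (G := LFunctionResidueClassAux a)
    (residueClass_nonneg a) (by positivity)
  · intro n
    have h1 : ∑ k ∈ Finset.Icc 1 n, residueClass a k ≤ ∑ k ∈ Finset.Icc 1 n, vonMangoldt k :=
      Finset.sum_le_sum (fun k _ => residueClass_le a k)
    have h2 := Chebyshev.psi_le_const_mul_self (x := (n : ℝ)) (Nat.cast_nonneg n)
    unfold Chebyshev.psi at h2
    rw [Nat.floor_natCast] at h2
    have h3 : Finset.Icc 1 n = Finset.Ioc 0 n := by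
      ext k
      rw [Finset.mem_Icc, Finset.mem_Ioc]
      omega
    rw [h3] at h1 ⊢
    exact h1.trans h2
  · exact continuousOn_LFunctionResidueClassAux a
  · intro s hs
    have := eqOn_LFunctionResidueClassAux ha (show s ∈ {s : ℂ | 1 < s.re} from hs)
    rw [this]
    push_cast
    rfl

/-- The sum of `log p` over the primes `p ≤ x`, `p ≡ a`. -/
noncomputable def thetaAP {q : ℕ} (a : ZMod q) (x : ℝ) : ℝ :=
  ∑ p ∈ (Finset.Icc 1 ⌊x⌋₊).filter (fun p : ℕ => p.Prime ∧ (p : ZMod q) = a), Real.log p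

theorem thetaAP_close {q : ℕ} (a : ZMod q) {x : ℝ} (hx : 1 ≤ x) :
    |(∑ k ∈ Finset.Icc 1 ⌊x⌋₊, residueClass a k) - thetaAP a x| ≤ 2 * √x * Real.log x := by
  classical
  have h1 : thetaAP a x = ∑ k ∈ Finset.Icc 1 ⌊x⌋₊,
      (if k.Prime ∧ (k : ZMod q) = a then Real.log k else 0) := by
    unfold thetaAP
    rw [Finset.sum_filter]
  have h2 : ∀ k : ℕ, residueClass a k - (if k.Prime ∧ (k : ZMod q) = a then Real.log k else 0) ≤
      vonMangoldt k - (if k.Prime then Real.log k else 0) ∧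
      0 ≤ residueClass a k - (if k.Prime ∧ (k : ZMod q) = a then Real.log k else 0) := by
    intro k
    by_cases hk : (k : ZMod q) = a
    · have e1 : residueClass a k = vonMangoldt k := by
        apply Set.indicator_of_mem
        exact hk
      rw [e1]
      by_cases hp : k.Prime
      · rw [if_pos ⟨hp, hk⟩, if_pos hp, vonMangoldt_apply_prime hp]
        simp
      · rw [if_neg (fun h => hp h.1), if_neg hp]
        exact ⟨le_rfl, by rw [sub_zero]; exact vonMangoldt_nonneg⟩
    · have e1 : residueClass a k = 0 := by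
        apply Set.indicator_of_notMem
        exact hk
      rw [e1, if_neg (fun h => hk h.2)]
      refine ⟨?_, by simp⟩
      by_cases hp : k.Prime
      · rw [if_pos hp, vonMangoldt_apply_prime hp]
        simp
      · rw [if_neg hp]
        simp only [sub_zero]
        exact vonMangoldt_nonneg
  have h3 : Finset.Icc 1 ⌊x⌋₊ = Finset.Ioc 0 ⌊x⌋₊ := by
    ext k
    rw [Finset.mem_Icc, Finset.mem_Ioc]
    omega
  have h4 : Chebyshev.psi x - Chebyshev.theta x = ∑ k ∈ Finset.Icc 1 ⌊x⌋₊,
      (vonMangoldt k - (if k.Prime then Real.log k else 0)) := by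
    rw [Finset.sum_sub_distrib, h3]
    unfold Chebyshev.psi Chebyshev.theta
    rw [Finset.sum_filter]
  have h5 := Chebyshev.abs_psi_sub_theta_le_sqrt_mul_log hx
  rw [h1, ← Finset.sum_sub_distrib, abs_of_nonneg (Finset.sum_nonneg (fun k _ => (h2 k).2))]
  refine le_trans (Finset.sum_le_sum (fun k _ => (h2 k).1)) ?_
  rw [← h4]
  exact (le_abs_self _).trans h5

/-- The prime number theorem for arithmetic progressions. -/
theorem thetaAP_tendsto {q : ℕ} [NeZero q] {a : ZMod q} (ha : IsUnit a) :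
    Tendsto (fun x : ℝ => thetaAP a x / x) atTop (𝓝 ((q.totient : ℝ)⁻¹)) := by
  have h1 := psi_ap ha
  have h2 : Tendsto (fun x : ℝ => 2 * √x * Real.log x / x) atTop (𝓝 0) := by
    have h3 : Tendsto (fun x : ℝ => Real.log x / x ^ ((1 : ℝ) / 2)) atTop (𝓝 0) :=
      (isLittleO_log_rpow_atTop (by norm_num)).tendsto_div_nhds_zero
    have h4 := h3.const_mul 2
    rw [mul_zero] at h4
    refine h4.congr' ?_
    filter_upwards [eventually_gt_atTop 0] with x hx
    rw [Real.sqrt_eq_rpow]
    obtain ⟨w, hw⟩ : ∃ w : ℝ, w = x ^ ((1 : ℝ) / 2) := ⟨_, rfl⟩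
    have hw0 : 0 < w := by rw [hw]; exact Real.rpow_pos_of_pos hx _
    have h5 : x = w * w := by
      rw [hw, ← Real.rpow_add hx]; norm_num
    rw [← hw]
    have h6 : 2 * w * Real.log x / x = 2 * w * Real.log x / (w * w) := by rw [← h5]
    rw [h6]
    field_simp
  have h3 : Tendsto (fun x : ℝ => (∑ k ∈ Finset.Icc 1 ⌊x⌋₊, residueClass a k) / x -
      thetaAP a x / x) atTop (𝓝 0) := by
    apply squeeze_zero_norm' _ h2
    filter_upwards [eventually_ge_atTop 1] with x hx
    rw [← sub_div, Real.norm_eq_abs, abs_div, abs_of_nonneg (by linarith : (0 : ℝ) ≤ x)]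
    exact div_le_div_of_nonneg_right (thetaAP_close a hx) (by linarith)
  have h4 := h1.sub h3
  simpa using h4

/-- Primes in a reduced residue class in short intervals `(x, (1 + η) x]`. -/
theorem exists_prime_ap {q : ℕ} [NeZero q] {a : ZMod q} (ha : IsUnit a) {η : ℝ} (hη : 0 < η) :
    ∀ᶠ x : ℝ in atTop, ∃ p : ℕ, p.Prime ∧ (p : ZMod q) = a ∧ x < p ∧ (p : ℝ) ≤ (1 + η) * x := by
  have hφ : (0 : ℝ) < (q.totient : ℝ)⁻¹ := by
    apply inv_pos.2
    exact_mod_cast Nat.totient_pos.2 (Nat.pos_of_ne_zero (NeZero.ne q))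
  have h1 := thetaAP_tendsto ha
  have h2 : Tendsto (fun x : ℝ => thetaAP a ((1 + η) * x) / ((1 + η) * x)) atTop
      (𝓝 ((q.totient : ℝ)⁻¹)) := h1.comp (tendsto_id.const_mul_atTop (by positivity))
  have h3 : Tendsto (fun x : ℝ => (1 + η) * (thetaAP a ((1 + η) * x) / ((1 + η) * x)) -
      thetaAP a x / x) atTop (𝓝 ((1 + η) * (q.totient : ℝ)⁻¹ - (q.totient : ℝ)⁻¹)) :=
    (h2.const_mul (1 + η)).sub h1
  have h4 : 0 < (1 + η) * (q.totient : ℝ)⁻¹ - (q.totient : ℝ)⁻¹ := by
    have : 0 < η * (q.totient : ℝ)⁻¹ := by positivity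
    linarith
  filter_upwards [h3.eventually (lt_mem_nhds h4), eventually_gt_atTop 0] with x hx hx0
  by_contra hcon
  push Not at hcon
  have h5 : thetaAP a ((1 + η) * x) ≤ thetaAP a x := by
    unfold thetaAP
    apply Finset.sum_le_sum_of_subset_of_nonneg
    · intro p hp
      rw [Finset.mem_filter, Finset.mem_Icc] at hp ⊢
      obtain ⟨⟨h6, h7⟩, h8, h9⟩ := hp
      refine ⟨⟨h6, ?_⟩, h8, h9⟩
      rw [Nat.le_floor_iff hx0.le]
      by_contra h10
      push Not at h10
      have h11 := hcon p h8 h9 h10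
      rw [Nat.le_floor_iff (by positivity)] at h7
      linarith
    · intro p hp _
      rw [Finset.mem_filter, Finset.mem_Icc] at hp
      apply Real.log_nonneg
      exact_mod_cast hp.1.1
  have h6 : (1 + η) * (thetaAP a ((1 + η) * x) / ((1 + η) * x)) = thetaAP a ((1 + η) * x) / x := by
    field_simp
  rw [h6, ← sub_div] at hx
  have h7 : (thetaAP a ((1 + η) * x) - thetaAP a x) / x ≤ 0 :=
    div_nonpos_of_nonpos_of_nonneg (by linarith) hx0.le
  linarith

/-- Primes in short intervals `(x, (1 + η) x]`. -/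
theorem exists_prime_short {η : ℝ} (hη : 0 < η) :
    ∀ᶠ x : ℝ in atTop, ∃ p : ℕ, p.Prime ∧ x < p ∧ (p : ℝ) ≤ (1 + η) * x := by
  have ha : IsUnit (0 : ZMod 1) := by
    have : (0 : ZMod 1) = 1 := Subsingleton.elim _ _
    rw [this]; exact isUnit_one
  filter_upwards [exists_prime_ap ha hη] with x hx
  obtain ⟨p, h1, -, h2, h3⟩ := hx
  exact ⟨p, h1, h2, h3⟩

end Pool.Agent.Helper64.PNT
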