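import Pool.Agent.Helper64.PNT.Tauber3

/-!
# The Wiener-Ikehara theorem for Dirichlet series, and the prime number theorem
-/

set_option autoImplicit false

namespace Pool.Agent.Helper64.PNT

open MeasureTheory Filter Topology Set Complex

/-- The normalised summatory function. -/
noncomputable def nsum (f : ℕ → ℝ) (u : ℝ) : ℝ :=
  (∑ k ∈ Finset.Icc 1 ⌊Real.exp u⌋₊, f k) * Real.exp (-u)

theorem nsum_meas (f : ℕ → ℝ) : Measurable (nsum f) := by
  unfold nsum
  apply Measurable.mul _ (by fun_prop)
  have h1 : Measurable (fun n : ℕ => ∑ k ∈ Finset.Icc 1 n, f k) := measurable_from_nat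
  exact h1.comp (Nat.measurable_floor.comp Real.measurable_exp)

theorem exp_transform (f : ℕ → ℝ) (s : ℂ) :
    ∫ t in Ioi (1 : ℝ), (∑ k ∈ Finset.Icc 1 ⌊t⌋₊, (f k : ℂ)) * (t : ℂ) ^ (-((1 + s) + 1)) =
      ∫ u in Ioi (0 : ℝ), (nsum f u : ℂ) * cexp (-s * u) := by
  have himg : Real.exp '' (Ioi (0 : ℝ)) = Ioi 1 := by
    ext x
    rw [mem_image, mem_Ioi]
    constructor
    · rintro ⟨u, hu, rfl⟩
      exact Real.one_lt_exp_iff.2 hu
    · intro hx
      exact ⟨Real.log x, Real.log_pos hx, Real.exp_log (by linarith)⟩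
  rw [← himg, integral_image_eq_integral_abs_deriv_smul measurableSet_Ioi
    (fun x _ => (Real.hasDerivAt_exp x).hasDerivWithinAt) Real.exp_injective.injOn]
  apply setIntegral_congr_fun measurableSet_Ioi
  intro u _
  simp only
  rw [abs_of_pos (Real.exp_pos u)]
  have h1 : ((Real.exp u : ℝ) : ℂ) ^ (-((1 + s) + 1)) = cexp (-((1 + s) + 1) * u) := by
    rw [Complex.cpow_def_of_ne_zero (by exact_mod_cast (Real.exp_pos u).ne'),
      ← Complex.ofReal_log (Real.exp_pos u).le, Real.log_exp, mul_comm]
  rw [h1, Complex.real_smul]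
  unfold nsum
  push_cast
  have h2 : cexp u * ((∑ k ∈ Finset.Icc 1 ⌊Real.exp u⌋₊, (f k : ℂ)) *
      cexp (-((1 + s) + 1) * u)) = (∑ k ∈ Finset.Icc 1 ⌊Real.exp u⌋₊, (f k : ℂ)) *
      (cexp u * cexp (-((1 + s) + 1) * u)) := by ring
  rw [h2, mul_assoc, ← Complex.exp_add, ← Complex.exp_add]
  congr 2
  ring

/-- The Wiener-Ikehara theorem, for coefficient sums which are `O(n)`. -/
theorem wiener_ikehara {f : ℕ → ℝ} (hf : ∀ n, 0 ≤ f n) {c M : ℝ} (hc : 0 ≤ c)
    (hM : ∀ n : ℕ, ∑ k ∈ Finset.Icc 1 n, f k ≤ M * n) {G : ℂ → ℂ}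
    (hG : ContinuousOn G {s | 1 ≤ s.re})
    (hGf : ∀ s : ℂ, 1 < s.re → G s = LSeries (fun n => (f n : ℂ)) s - c / (s - 1)) :
    Tendsto (fun x : ℝ => (∑ k ∈ Finset.Icc 1 ⌊x⌋₊, f k) / x) atTop (𝓝 c) := by
  have hM0 : 0 ≤ M := by
    have h1 := hM 1
    have h2 : 0 ≤ ∑ k ∈ Finset.Icc 1 1, f k := Finset.sum_nonneg (fun k _ => hf k)
    simp only [Nat.cast_one, mul_one] at h1
    linarith
  have hO : (fun n : ℕ => ∑ k ∈ Finset.Icc 1 n, f k) =O[atTop] fun n => (n : ℝ) ^ (1 : ℝ) := by
    rw [Asymptotics.isBigO_iff]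
    refine ⟨M, Eventually.of_forall fun n => ?_⟩
    have e1 : (0 : ℝ) ≤ n := Nat.cast_nonneg n
    rw [Real.rpow_one, Real.norm_eq_abs, Real.norm_eq_abs, abs_of_nonneg e1,
      abs_of_nonneg (Finset.sum_nonneg (fun k _ => hf k))]
    exact hM n
  have hdata : TData (nsum f) M c (fun s => (G (1 + s) - c) / (1 + s)) := by
    refine ⟨nsum_meas f, ?_, ?_, ?_, ?_, hc, ?_, ?_⟩
    · intro u
      exact mul_nonneg (Finset.sum_nonneg (fun k _ => hf k)) (Real.exp_pos _).le
    · intro u
      unfold nsum
      rw [Real.exp_neg, ← div_eq_mul_inv, div_le_iff₀ (Real.exp_pos u)]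
      refine (hM _).trans ?_
      exact mul_le_mul_of_nonneg_left (Nat.floor_le (Real.exp_pos u).le) hM0
    · intro u hu
      unfold nsum
      have : ⌊Real.exp u⌋₊ = 0 := by
        rw [Nat.floor_eq_zero]
        exact Real.exp_lt_one_iff.2 hu
      rw [this]
      simp
    · intro u v huv
      unfold nsum
      rw [mul_assoc, ← Real.exp_add]
      have e : -u + -(v - u) = -v := by ring
      rw [e]
      apply mul_le_mul_of_nonneg_right _ (Real.exp_pos _).le
      apply Finset.sum_le_sum_of_subset_of_nonneg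
      · apply Finset.Icc_subset_Icc_right
        exact Nat.floor_le_floor (Real.exp_le_exp.2 huv)
      · intro k _ _
        exact hf k
    · apply ContinuousOn.div
      · apply ContinuousOn.sub _ continuousOn_const
        apply hG.comp (by fun_prop)
        intro s hs
        rw [mem_ofPred_eq] at hs ⊢
        rw [add_re, one_re]
        linarith
      · fun_prop
      · intro s hs h0
        rw [mem_ofPred_eq] at hs
        have h1 := congrArg Complex.re h0
        rw [add_re, one_re, zero_re] at h1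
        linarith
    · intro s hs
      have hs1 : 1 < (1 + s).re := by rw [add_re, one_re]; linarith
      have h1 := LSeries_eq_mul_integral_of_nonneg f (by norm_num : (0 : ℝ) ≤ 1) hs1 hO hf
      rw [exp_transform] at h1
      have hs0 : s ≠ 0 := by
        rintro rfl
        simp at hs
      have hs10 : (1 + s) ≠ 0 := by
        intro h0
        rw [h0, zero_re] at hs1
        linarith
      have h2 : ∫ u in Ioi (0 : ℝ), cexp (-s * u) = 1 / s := by
        rw [integral_exp_mul_complex_Ioi (by rw [neg_re]; linarith)]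
        simp
      have hint2 : IntegrableOn (fun u : ℝ => cexp (-s * u)) (Ioi 0) :=
        integrableOn_exp_mul_complex_Ioi (by rw [neg_re]; linarith) 0
      have hint1 : IntegrableOn (fun u : ℝ => (nsum f u : ℂ) * cexp (-s * u)) (Ioi 0) := by
        apply hint2.bdd_mul (c := M)
        · exact (Complex.measurable_ofReal.comp (nsum_meas f)).aestronglyMeasurable
        · refine Eventually.of_forall fun u => ?_
          unfold nsum
          rw [Complex.norm_real, Real.norm_eq_abs, abs_of_nonneg
            (mul_nonneg (Finset.sum_nonneg (fun k _ => hf k)) (Real.exp_pos _).le)]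
          rw [Real.exp_neg, ← div_eq_mul_inv, div_le_iff₀ (Real.exp_pos u)]
          refine (hM _).trans ?_
          exact mul_le_mul_of_nonneg_left (Nat.floor_le (Real.exp_pos u).le) hM0
      have h3 : ∫ u in Ioi (0 : ℝ), ((nsum f u - c : ℝ) : ℂ) * cexp (-s * u) =
          (∫ u in Ioi (0 : ℝ), (nsum f u : ℂ) * cexp (-s * u)) - c * (1 / s) := by
        rw [← h2, ← integral_const_mul, ← integral_sub hint1 (hint2.const_mul _)]
        congr 1
        funext u
        push_cast
        ring
      rw [h3]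
      have h4 := hGf (1 + s) hs1
      have h5 : (1 + s) - 1 = s := by ring
      rw [h5, h1] at h4
      rw [h4]
      field_simp
      ring
  have h1 := (tauber hdata).comp Real.tendsto_log_atTop
  refine h1.congr' ?_
  filter_upwards [eventually_gt_atTop 0] with x hx
  simp only [Function.comp]
  unfold nsum
  rw [Real.exp_neg, Real.exp_log hx, div_eq_mul_inv]

end Pool.Agent.Helper64.PNT
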