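import Mathlib

/-!
# The Fejer kernel
-/

set_option autoImplicit false

namespace Pool.Agent.Helper64.PNT

open MeasureTheory Filter Topology Set

/-- The Fejer kernel. -/
noncomputable def fk (x : ℝ) : ℝ := ∫ τ in (-1 : ℝ)..1, (1 - |τ|) * Real.cos (x * τ)

theorem continuous_fk : Continuous fk := by
  unfold fk
  apply intervalIntegral.continuous_parametric_intervalIntegral_of_continuous'
  fun_prop

theorem fk_eq {x : ℝ} (hx : x ≠ 0) : fk x = 2 * (1 - Real.cos x) / x ^ 2 := by
  unfold fk
  rw [← intervalIntegral.integral_add_adjacent_intervals (b := 0)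
    (Continuous.intervalIntegrable (by fun_prop) _ _)
    (Continuous.intervalIntegrable (by fun_prop) _ _)]
  have h1 : ∫ τ in (-1 : ℝ)..0, (1 - |τ|) * Real.cos (x * τ) = (1 - Real.cos x) / x ^ 2 := by
    have e : ∫ τ in (-1 : ℝ)..0, (1 - |τ|) * Real.cos (x * τ) =
        ∫ τ in (-1 : ℝ)..0, (1 + τ) * Real.cos (x * τ) := by
      apply intervalIntegral.integral_congr
      intro τ hτ
      rw [uIcc_of_le (by norm_num)] at hτ
      simp only
      rw [abs_of_nonpos hτ.2]
      ring
    rw [e, intervalIntegral.integral_eq_sub_of_hasDerivAt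
      (f := fun τ => (1 + τ) * (Real.sin (x * τ) / x) + Real.cos (x * τ) / x ^ 2)]
    · simp
      ring
    · intro τ _
      have d1 : HasDerivAt (fun τ : ℝ => x * τ) x τ := by
        simpa using (hasDerivAt_id τ).const_mul x
      have d2 := (d1.sin).div_const x
      have d3 := (d1.cos).div_const (x ^ 2)
      have d4 : HasDerivAt (fun τ : ℝ => 1 + τ) 1 τ := by
        simpa using (hasDerivAt_id τ).const_add (1 : ℝ)
      refine ((d4.fun_mul d2).fun_add d3).congr_deriv ?_
      field_simp
      ring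
    · exact Continuous.intervalIntegrable (by fun_prop) _ _
  have h2 : ∫ τ in (0 : ℝ)..1, (1 - |τ|) * Real.cos (x * τ) = (1 - Real.cos x) / x ^ 2 := by
    have e : ∫ τ in (0 : ℝ)..1, (1 - |τ|) * Real.cos (x * τ) =
        ∫ τ in (0 : ℝ)..1, (1 - τ) * Real.cos (x * τ) := by
      apply intervalIntegral.integral_congr
      intro τ hτ
      rw [uIcc_of_le (by norm_num)] at hτ
      simp only
      rw [abs_of_nonneg hτ.1]
    rw [e, intervalIntegral.integral_eq_sub_of_hasDerivAt
      (f := fun τ => (1 - τ) * (Real.sin (x * τ) / x) - Real.cos (x * τ) / x ^ 2)]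
    · simp
      ring
    · intro τ _
      have d1 : HasDerivAt (fun τ : ℝ => x * τ) x τ := by
        simpa using (hasDerivAt_id τ).const_mul x
      have d2 := (d1.sin).div_const x
      have d3 := (d1.cos).div_const (x ^ 2)
      have d4 : HasDerivAt (fun τ : ℝ => 1 - τ) (-1) τ := by
        simpa using (hasDerivAt_id τ).const_sub (1 : ℝ)
      refine ((d4.fun_mul d2).fun_sub d3).congr_deriv ?_
      field_simp
      ring
    · exact Continuous.intervalIntegrable (by fun_prop) _ _
  rw [h1, h2]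
  ring

theorem fk_nonneg (x : ℝ) : 0 ≤ fk x := by
  rcases eq_or_ne x 0 with rfl | hx
  · unfold fk
    apply intervalIntegral.integral_nonneg (by norm_num)
    intro τ hτ
    rw [zero_mul, Real.cos_zero, mul_one, sub_nonneg]
    exact abs_le.2 ⟨hτ.1, hτ.2⟩
  · rw [fk_eq hx]
    have := Real.cos_le_one x
    apply div_nonneg _ (sq_nonneg _)
    linarith

theorem fk_le_two (x : ℝ) : fk x ≤ 2 := by
  have h : ‖fk x‖ ≤ 1 * |(1 : ℝ) - (-1)| := by
    unfold fk
    apply intervalIntegral.norm_integral_le_of_norm_le_const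
    intro τ hτ
    rw [uIoc_of_le (by norm_num)] at hτ
    rw [norm_mul, Real.norm_eq_abs, Real.norm_eq_abs]
    have h1 : |(1 - |τ|)| ≤ 1 := by
      have : |τ| ≤ 1 := abs_le.2 ⟨hτ.1.le, hτ.2⟩
      rw [abs_of_nonneg (by linarith)]
      have := abs_nonneg τ
      linarith
    have h2 := Real.abs_cos_le_one (x * τ)
    calc |(1 - |τ|)| * |Real.cos (x * τ)| ≤ 1 * 1 :=
          mul_le_mul h1 h2 (abs_nonneg _) (by norm_num)
      _ = 1 := by norm_num
  rw [Real.norm_eq_abs, abs_of_nonneg (fk_nonneg x)] at h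
  norm_num at h
  exact h

theorem fk_le (x : ℝ) : fk x ≤ 6 * (1 + x ^ 2)⁻¹ := by
  rw [← div_eq_mul_inv, le_div_iff₀ (by positivity)]
  have h1 := fk_le_two x
  have h2 : fk x * x ^ 2 ≤ 4 := by
    rcases eq_or_ne x 0 with rfl | hx
    · norm_num
    · rw [fk_eq hx, div_mul_cancel₀ _ (by positivity)]
      have := Real.neg_one_le_cos x
      linarith
  linarith

theorem integrable_fk : Integrable fk := by
  apply (integrable_inv_one_add_sq.const_mul 6).mono' continuous_fk.aestronglyMeasurable
  refine Eventually.of_forall fun x => ?_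
  rw [Real.norm_eq_abs, abs_of_nonneg (fk_nonneg x)]
  exact fk_le x

theorem integral_fk_pos : 0 < ∫ x, fk x := by
  rw [integral_pos_iff_support_of_nonneg fk_nonneg integrable_fk]
  refine (continuous_fk.isOpen_support).measure_pos volume ⟨Real.pi, ?_⟩
  rw [Function.mem_support, fk_eq Real.pi_ne_zero, Real.cos_pi]
  have := Real.pi_pos
  positivity

theorem fk_exp (x : ℝ) : ∫ τ in (-1 : ℝ)..1, ((1 - |τ| : ℝ) : ℂ) *
    Complex.exp (Complex.I * (x * τ : ℝ)) = (fk x : ℂ) := by
  have hodd : ∫ τ in (-1 : ℝ)..1, (1 - |τ|) * Real.sin (x * τ) = 0 := by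
    have h1 := intervalIntegral.integral_comp_neg (a := -1) (b := 1)
      (fun τ : ℝ => (1 - |τ|) * Real.sin (x * τ))
    rw [neg_neg] at h1
    have h2 : ∫ τ in (-1 : ℝ)..1, (1 - |-τ|) * Real.sin (x * -τ) =
        - ∫ τ in (-1 : ℝ)..1, (1 - |τ|) * Real.sin (x * τ) := by
      rw [← intervalIntegral.integral_neg]
      apply intervalIntegral.integral_congr
      intro τ _
      simp only
      rw [abs_neg, mul_neg, Real.sin_neg]
      ring
    rw [h2] at h1
    linarith
  have h1 : ∀ τ : ℝ, ((1 - |τ| : ℝ) : ℂ) * Complex.exp (Complex.I * (x * τ : ℝ)) =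
      (((1 - |τ|) * Real.cos (x * τ) : ℝ) : ℂ) +
        Complex.I * (((1 - |τ|) * Real.sin (x * τ) : ℝ) : ℂ) := by
    intro τ
    rw [mul_comm Complex.I, Complex.exp_mul_I]
    push_cast
    ring
  simp_rw [h1]
  rw [intervalIntegral.integral_add, intervalIntegral.integral_const_mul,
    intervalIntegral.integral_ofReal, intervalIntegral.integral_ofReal, hodd]
  · simp [fk]
  · exact Continuous.intervalIntegrable (by fun_prop) _ _
  · exact Continuous.intervalIntegrable (by fun_prop) _ _

end Pool.Agent.Helper64.PNT
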