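import Pool.Agent.Helper64.PNT.Kernel

/-!
# The Wiener-Ikehara Tauberian theorem: analytic part
-/

set_option autoImplicit false

namespace Pool.Agent.Helper64.PNT

open MeasureTheory Filter Topology Set Complex

/-- Fubini. -/
theorem fubini_step {b : ℝ → ℂ} (hb : Integrable b) {l : ℝ} (hl : 0 < l) (y : ℝ) :
    ∫ v, b (y - l⁻¹ * v) * (fk v : ℂ) =
      l * ∫ τ in (-1 : ℝ)..1, ((1 - |τ| : ℝ) : ℂ) * (cexp (I * (l * y * τ : ℝ)) *
        ∫ u, b u * cexp (-(I * (l * τ * u : ℝ)))) := by
  have hb' : Integrable (fun v => b (y - l⁻¹ * v)) := by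
    have h1 := (hb.comp_sub_left y)
    exact h1.comp_mul_left' (inv_ne_zero hl.ne')
  have hsub : ∀ τ : ℝ, (l : ℂ) * (cexp (I * (l * y * τ : ℝ)) *
      ∫ u, b u * cexp (-(I * (l * τ * u : ℝ)))) =
      ∫ v, b (y - l⁻¹ * v) * cexp (I * (v * τ : ℝ)) := by
    intro τ
    have e1 : cexp (I * (l * y * τ : ℝ)) * ∫ u, b u * cexp (-(I * (l * τ * u : ℝ))) =
        ∫ u, b u * cexp (I * (l * τ * (y - u) : ℝ)) := by
      rw [← integral_const_mul]
      congr 1
      funext u
      rw [mul_left_comm, ← Complex.exp_add]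
      congr 2
      push_cast
      ring
    have e2 := Measure.integral_comp_mul_left
      (fun x => (fun u => b u * cexp (I * (l * τ * (y - u) : ℝ))) (y - x)) (l⁻¹)
    rw [integral_sub_left_eq_self (fun u => b u * cexp (I * (l * τ * (y - u) : ℝ)))] at e2
    rw [inv_inv, abs_of_pos hl] at e2
    rw [e1]
    have e3 : ∫ v, b (y - l⁻¹ * v) * cexp (I * (v * τ : ℝ)) =
        ∫ x : ℝ, (fun x => (fun u => b u * cexp (I * (l * τ * (y - u) : ℝ))) (y - x))
          (l⁻¹ * x) := by
      congr 1
      funext v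
      simp only
      congr 3
      congr 1
      field_simp
      ring
    rw [e3, e2]
    simp
  have hL : (l : ℂ) * ∫ τ in (-1 : ℝ)..1, ((1 - |τ| : ℝ) : ℂ) * (cexp (I * (l * y * τ : ℝ)) *
        ∫ u, b u * cexp (-(I * (l * τ * u : ℝ)))) =
      ∫ τ in (-1 : ℝ)..1, ∫ v, ((1 - |τ| : ℝ) : ℂ) *
        (b (y - l⁻¹ * v) * cexp (I * (v * τ : ℝ))) := by
    rw [← intervalIntegral.integral_const_mul]
    congr 1
    funext τ
    rw [integral_const_mul, ← hsub τ]
    ring
  rw [hL, intervalIntegral_integral_swap]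
  · congr 1
    funext v
    rw [← fk_exp v, ← intervalIntegral.integral_const_mul]
    congr 1
    funext τ
    ring
  · have h1 : Integrable (fun τ : ℝ => ((1 - |τ| : ℝ) : ℂ)) (volume.restrict (uIoc (-1 : ℝ) 1)) := by
      have : Continuous (fun τ : ℝ => ((1 - |τ| : ℝ) : ℂ)) := by fun_prop
      exact (this.intervalIntegrable (-1) 1).def'
    have h2 := h1.mul_prod hb'
    apply h2.mono
    · apply AEStronglyMeasurable.mul
      · have : Continuous (fun z : ℝ × ℝ => ((1 - |z.1| : ℝ) : ℂ)) := by fun_prop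
        exact this.aestronglyMeasurable
      · apply AEStronglyMeasurable.mul
        · exact hb'.aestronglyMeasurable.comp_snd
        · have : Continuous (fun z : ℝ × ℝ => cexp (I * (z.2 * z.1 : ℝ))) := by fun_prop
          exact this.aestronglyMeasurable
    · refine Eventually.of_forall fun z => ?_
      simp only [Function.uncurry]
      rw [norm_mul, norm_mul, norm_mul]
      have : ‖cexp (I * (z.2 * z.1 : ℝ))‖ = 1 := by
        rw [mul_comm, Complex.norm_exp_ofReal_mul_I]
      rw [this, mul_one]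

end Pool.Agent.Helper64.PNT
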