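import Pool.Agent.Helper64.PNT.Tauber

/-!
# The Wiener-Ikehara Tauberian theorem: passage to the boundary
-/

set_option autoImplicit false

namespace Pool.Agent.Helper64.PNT

open MeasureTheory Filter Topology Set Complex

/-- The data of the Tauberian theorem. -/
structure TData (A : ℝ → ℝ) (B c : ℝ) (H : ℂ → ℂ) : Prop where
  meas : Measurable A
  nonneg : ∀ u, 0 ≤ A u
  le : ∀ u, A u ≤ B
  neg : ∀ u < 0, A u = 0
  mono : ∀ u v, u ≤ v → A u * Real.exp (-(v - u)) ≤ A v
  hc : 0 ≤ c
  cont : ContinuousOn H {s | 0 ≤ s.re}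
  eq : ∀ s : ℂ, 0 < s.re → ∫ u in Ioi (0 : ℝ), ((A u - c : ℝ) : ℂ) * cexp (-s * u) = H s

/-- The deviation. -/
noncomputable def dev (A : ℝ → ℝ) (c : ℝ) (u : ℝ) : ℝ := (Ici (0 : ℝ)).indicator (fun u => A u - c) u

variable {A : ℝ → ℝ} {B c : ℝ} {H : ℂ → ℂ}

theorem dev_meas (h : TData A B c H) : Measurable (dev A c) :=
  (h.meas.sub_const c).indicator measurableSet_Ici

theorem dev_neg {u : ℝ} (hu : u < 0) : dev A c u = 0 := by
  unfold dev
  rw [indicator_of_notMem]
  simpa using hu

theorem dev_pos {u : ℝ} (hu : 0 ≤ u) : dev A c u = A u - c := by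
  unfold dev
  rw [indicator_of_mem]
  simpa using hu

theorem B_nonneg (h : TData A B c H) : 0 ≤ B := (h.nonneg 0).trans (h.le 0)

theorem abs_dev_le (h : TData A B c H) (u : ℝ) : |dev A c u| ≤ B + c := by
  have hB := B_nonneg h
  have hc := h.hc
  rcases lt_or_ge u 0 with hu | hu
  · rw [dev_neg hu, abs_zero]; linarith
  · rw [dev_pos hu, abs_le]
    have h1 := h.nonneg u
    have h2 := h.le u
    constructor <;> linarith

theorem damped_integrable (h : TData A B c H) {σ : ℝ} (hσ : 0 < σ) :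
    Integrable (fun u : ℝ => (dev A c u : ℂ) * cexp (-(σ * u : ℝ))) := by
  have h1 : IntegrableOn (fun u : ℝ => (B + c) * Real.exp (-σ * u)) (Ici 0) := by
    rw [integrableOn_Ici_iff_integrableOn_Ioi]
    exact (exp_neg_integrableOn_Ioi 0 hσ).const_mul _
  have h2 := (integrable_indicator_iff (measurableSet_Ici (a := (0 : ℝ)))).2 h1
  apply h2.mono'
  · apply AEStronglyMeasurable.mul
    · exact (Complex.measurable_ofReal.comp (dev_meas h)).aestronglyMeasurable
    · have : Continuous (fun u : ℝ => cexp (-(σ * u : ℝ))) := by fun_prop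
      exact this.aestronglyMeasurable
  · refine Eventually.of_forall fun u => ?_
    rw [norm_mul, Complex.norm_real, Real.norm_eq_abs]
    have e : ‖cexp (-(σ * u : ℝ))‖ = Real.exp (-σ * u) := by
      rw [Complex.norm_exp]
      congr 1
      simp
    rw [e]
    rcases lt_or_ge u 0 with hu | hu
    · rw [dev_neg hu, abs_zero, zero_mul, indicator_of_notMem (by simpa using hu)]
    · rw [indicator_of_mem (by simpa using hu)]
      exact mul_le_mul_of_nonneg_right (abs_dev_le h u) (Real.exp_pos _).le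

theorem damped_transform (h : TData A B c H) {σ : ℝ} (hσ : 0 < σ) (x : ℝ) :
    ∫ u : ℝ, ((dev A c u : ℂ) * cexp (-(σ * u : ℝ))) * cexp (-(I * (x * u : ℝ))) =
      H (σ + I * x) := by
  have hre : 0 < (σ + I * x : ℂ).re := by simpa using hσ
  rw [← h.eq _ hre, ← integral_Ici_eq_integral_Ioi, ← integral_indicator measurableSet_Ici]
  congr 1
  funext u
  rcases lt_or_ge u 0 with hu | hu
  · rw [dev_neg hu, indicator_of_notMem (by simpa using hu)]
    simp
  · rw [dev_pos hu, indicator_of_mem (by simpa using hu), mul_assoc, ← Complex.exp_add]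
    congr 2
    push_cast
    ring

theorem damped_identity (h : TData A B c H) {σ : ℝ} (hσ : 0 < σ) {l : ℝ} (hl : 0 < l) (y : ℝ) :
    ∫ v : ℝ, ((dev A c (y - l⁻¹ * v) : ℂ) * cexp (-(σ * (y - l⁻¹ * v) : ℝ))) * (fk v : ℂ) =
      l * ∫ τ in (-1 : ℝ)..1, ((1 - |τ| : ℝ) : ℂ) * (cexp (I * (l * y * τ : ℝ)) *
        H (σ + I * (l * τ : ℝ))) := by
  have h1 := fubini_step (damped_integrable h hσ) hl y
  rw [h1]
  congr 2
  funext τ
  rw [← damped_transform h hσ (l * τ)]

theorem boundary_identity (h : TData A B c H) {l : ℝ} (hl : 0 < l) (y : ℝ) :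
    ∫ v : ℝ, (dev A c (y - l⁻¹ * v) : ℂ) * (fk v : ℂ) =
      l * ∫ τ in (-1 : ℝ)..1, ((1 - |τ| : ℝ) : ℂ) * (cexp (I * (l * y * τ : ℝ)) *
        H (I * (l * τ : ℝ))) := by
  have hmeas : Measurable (fun v : ℝ => dev A c (y - l⁻¹ * v)) :=
    (dev_meas h).comp (by fun_prop)
  have hlim1 : Tendsto (fun σ : ℝ => ∫ v : ℝ, ((dev A c (y - l⁻¹ * v) : ℂ) *
      cexp (-(σ * (y - l⁻¹ * v) : ℝ))) * (fk v : ℂ)) (𝓝[>] 0)
      (𝓝 (∫ v : ℝ, (dev A c (y - l⁻¹ * v) : ℂ) * (fk v : ℂ))) := by
    apply tendsto_integral_filter_of_dominated_convergence (fun v => (B + c) * fk v)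
    · refine Eventually.of_forall fun σ => ?_
      apply AEStronglyMeasurable.mul
      · apply AEStronglyMeasurable.mul
        · exact (Complex.measurable_ofReal.comp hmeas).aestronglyMeasurable
        · have : Continuous (fun v : ℝ => cexp (-(σ * (y - l⁻¹ * v) : ℝ))) := by fun_prop
          exact this.aestronglyMeasurable
      · exact (Complex.continuous_ofReal.comp continuous_fk).aestronglyMeasurable
    · filter_upwards [self_mem_nhdsWithin] with σ hσ
      rw [mem_Ioi] at hσ
      refine Eventually.of_forall fun v => ?_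
      rw [norm_mul, norm_mul, Complex.norm_real, Complex.norm_real, Real.norm_eq_abs,
        Real.norm_eq_abs, abs_of_nonneg (fk_nonneg v)]
      apply mul_le_mul_of_nonneg_right _ (fk_nonneg v)
      rcases lt_or_ge (y - l⁻¹ * v) 0 with hu | hu
      · rw [dev_neg hu, abs_zero, zero_mul]
        have := B_nonneg h
        have := h.hc
        linarith
      · have e : ‖cexp (-(σ * (y - l⁻¹ * v) : ℝ))‖ ≤ 1 := by
          rw [Complex.norm_exp]
          apply Real.exp_le_one_iff.2
          rw [neg_re, ofReal_re, neg_nonpos]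
          exact mul_nonneg hσ.le hu
        have h2 := B_nonneg h
        have h3 := h.hc
        calc |dev A c (y - l⁻¹ * v)| * ‖cexp (-(σ * (y - l⁻¹ * v) : ℝ))‖ ≤ (B + c) * 1 :=
              mul_le_mul (abs_dev_le h _) e (norm_nonneg _) (by linarith)
          _ = B + c := mul_one _
    · exact integrable_fk.const_mul _
    · refine Eventually.of_forall fun v => ?_
      have h1 : Tendsto (fun σ : ℝ => cexp (-(σ * (y - l⁻¹ * v) : ℝ))) (𝓝[>] 0) (𝓝 1) := by
        have h2 : Continuous (fun σ : ℝ => cexp (-(σ * (y - l⁻¹ * v) : ℝ))) := by fun_prop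
        have h3 := h2.tendsto 0
        simp only [zero_mul, ofReal_zero, neg_zero, Complex.exp_zero] at h3
        exact h3.mono_left nhdsWithin_le_nhds
      have h2 := (h1.const_mul (dev A c (y - l⁻¹ * v) : ℂ)).mul_const (fk v : ℂ)
      rw [mul_one] at h2
      exact h2
  have hlim2 : Tendsto (fun σ : ℝ => (l : ℂ) * ∫ τ in (-1 : ℝ)..1, ((1 - |τ| : ℝ) : ℂ) *
      (cexp (I * (l * y * τ : ℝ)) * H (σ + I * (l * τ : ℝ)))) (𝓝[>] 0)
      (𝓝 ((l : ℂ) * ∫ τ in (-1 : ℝ)..1, ((1 - |τ| : ℝ) : ℂ) * (cexp (I * (l * y * τ : ℝ)) *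
        H (I * (l * τ : ℝ))))) := by
    apply Tendsto.const_mul
    obtain ⟨M, hM⟩ := ((isCompact_Icc (a := (0 : ℝ)) (b := 1)).reProdIm
      (isCompact_Icc (a := -l) (b := l))).exists_bound_of_continuousOn
      (h.cont.mono (by
        intro s hs
        rw [Complex.mem_reProdIm] at hs
        exact hs.1.1))
    apply intervalIntegral.tendsto_integral_filter_of_dominated_convergence (fun _ => M)
    · filter_upwards [self_mem_nhdsWithin] with σ hσ
      rw [mem_Ioi] at hσ
      have hc1 : Continuous (fun τ : ℝ => H (σ + I * (l * τ : ℝ))) := by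
        have h2 : Continuous (fun τ : ℝ => (σ + I * (l * τ : ℝ) : ℂ)) := by fun_prop
        apply h.cont.comp_continuous h2
        intro τ
        rw [mem_ofPred_eq]
        simpa using hσ.le
      have hc2 : Continuous (fun τ : ℝ => ((1 - |τ| : ℝ) : ℂ) * (cexp (I * (l * y * τ : ℝ)) *
          H (σ + I * (l * τ : ℝ)))) := by
        apply Continuous.mul (by fun_prop)
        exact Continuous.mul (by fun_prop) hc1
      exact hc2.aestronglyMeasurable
    · have h01 : ∀ᶠ σ : ℝ in 𝓝[>] 0, σ ∈ Ioo (0 : ℝ) 1 := Ioo_mem_nhdsGT (by norm_num)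
      filter_upwards [h01] with σ hσ
      refine Eventually.of_forall fun τ hτ => ?_
      rw [uIoc_of_le (by norm_num)] at hτ
      rw [norm_mul, norm_mul, Complex.norm_real, Real.norm_eq_abs]
      have e1 : ‖cexp (I * (l * y * τ : ℝ))‖ = 1 := by
        rw [mul_comm, Complex.norm_exp_ofReal_mul_I]
      have e2 : |(1 - |τ|)| ≤ 1 := by
        have : |τ| ≤ 1 := abs_le.2 ⟨hτ.1.le, hτ.2⟩
        rw [abs_of_nonneg (by linarith)]
        have := abs_nonneg τ
        linarith
      have e3 : ‖H (σ + I * (l * τ : ℝ))‖ ≤ M := by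
        apply hM
        rw [Complex.mem_reProdIm]
        constructor
        · simp only [add_re, ofReal_re, mul_re, I_re, zero_mul, I_im, ofReal_im, mul_zero,
            sub_zero, add_zero]
          exact ⟨hσ.1.le, hσ.2.le⟩
        · simp only [add_im, ofReal_im, mul_im, I_re, zero_mul, I_im, ofReal_re, one_mul,
            zero_add]
          constructor
          · have := hτ.1
            nlinarith
          · have := hτ.2
            nlinarith
      rw [e1, one_mul]
      calc |(1 - |τ|)| * ‖H (σ + I * (l * τ : ℝ))‖ ≤ 1 * M :=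
            mul_le_mul e2 e3 (norm_nonneg _) (by norm_num)
        _ = M := one_mul _
    · exact intervalIntegrable_const
    · refine Eventually.of_forall fun τ _ => ?_
      apply Tendsto.const_mul
      apply Tendsto.const_mul
      have h0 : (I * (l * τ : ℝ) : ℂ) ∈ {s : ℂ | 0 ≤ s.re} := by
        rw [mem_ofPred_eq]; simp
      have h1 := h.cont _ h0
      have h2 : Tendsto (fun σ : ℝ => (σ + I * (l * τ : ℝ) : ℂ)) (𝓝[>] 0)
          (𝓝[{s : ℂ | 0 ≤ s.re}] (I * (l * τ : ℝ))) := by
        apply tendsto_nhdsWithin_iff.2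
        constructor
        · have h3 : Continuous (fun σ : ℝ => (σ + I * (l * τ : ℝ) : ℂ)) := by fun_prop
          have h4 := h3.tendsto 0
          simp only [ofReal_zero, zero_add] at h4
          exact h4.mono_left nhdsWithin_le_nhds
        · filter_upwards [self_mem_nhdsWithin] with σ hσ
          rw [mem_Ioi] at hσ
          simpa using hσ.le
      exact h1.tendsto.comp h2
  have heq : (fun σ : ℝ => ∫ v : ℝ, ((dev A c (y - l⁻¹ * v) : ℂ) *
      cexp (-(σ * (y - l⁻¹ * v) : ℝ))) * (fk v : ℂ)) =ᶠ[𝓝[>] 0]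
      (fun σ : ℝ => (l : ℂ) * ∫ τ in (-1 : ℝ)..1, ((1 - |τ| : ℝ) : ℂ) *
      (cexp (I * (l * y * τ : ℝ)) * H (σ + I * (l * τ : ℝ)))) := by
    filter_upwards [self_mem_nhdsWithin] with σ hσ
    exact damped_identity h hσ hl y
  exact tendsto_nhds_unique hlim1 (hlim2.congr' heq.symm)

end Pool.Agent.Helper64.PNT
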