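import Pool.Agent.Helper64.PNT.Tauber2

/-!
# The Wiener-Ikehara Tauberian theorem: conclusion
-/

set_option autoImplicit false

namespace Pool.Agent.Helper64.PNT

open MeasureTheory Filter Topology Set Complex

variable {A : ℝ → ℝ} {B c : ℝ} {H : ℂ → ℂ}

/-- Riemann-Lebesgue. -/
theorem rl_step (h : TData A B c H) {l : ℝ} (hl : 0 < l) :
    Tendsto (fun y : ℝ => ∫ v : ℝ, dev A c (y - l⁻¹ * v) * fk v) atTop (𝓝 0) := by
  have h1 := Real.tendsto_integral_exp_smul_cocompact ((Ioc (-1 : ℝ) 1).indicator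
    (fun τ : ℝ => ((1 - |τ| : ℝ) : ℂ) * H (I * (l * τ : ℝ))))
  have h2 : Tendsto (fun y : ℝ => -(l * y / (2 * Real.pi))) atTop (cocompact ℝ) := by
    refine Tendsto.mono_right ?_ atBot_le_cocompact
    apply tendsto_neg_atTop_atBot.comp
    apply Tendsto.atTop_div_const (by positivity)
    exact tendsto_id.const_mul_atTop hl
  have h3 := (h1.comp h2).const_mul (l : ℂ)
  rw [mul_zero] at h3
  have h4 : (fun y : ℝ => ((∫ v : ℝ, dev A c (y - l⁻¹ * v) * fk v : ℝ) : ℂ)) =
      (fun y : ℝ => (l : ℂ) * ((fun w : ℝ => ∫ v : ℝ, Real.fourierChar (-(v * w)) •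
        ((Ioc (-1 : ℝ) 1).indicator
        (fun τ : ℝ => ((1 - |τ| : ℝ) : ℂ) * H (I * (l * τ : ℝ)))) v) ∘
        (fun y : ℝ => -(l * y / (2 * Real.pi)))) y) := by
    funext y
    have e := boundary_identity h hl y
    have e0 : ((∫ v : ℝ, dev A c (y - l⁻¹ * v) * fk v : ℝ) : ℂ) =
        ∫ v : ℝ, (dev A c (y - l⁻¹ * v) : ℂ) * (fk v : ℂ) := by
      rw [← integral_complex_ofReal]
      congr 1
      funext v
      push_cast
      rfl
    rw [e0, e, intervalIntegral.integral_of_le (by norm_num), ← integral_indicator measurableSet_Ioc]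
    simp only [Function.comp]
    congr 2
    funext τ
    by_cases hτ : τ ∈ Ioc (-1 : ℝ) 1
    · rw [indicator_of_mem hτ, indicator_of_mem hτ, Circle.smul_def, Real.fourierChar_apply,
        smul_eq_mul]
      have e1 : cexp (↑(2 * Real.pi * -(τ * -(l * y / (2 * Real.pi)))) * I) =
          cexp (I * (l * y * τ : ℝ)) := by
        congr 1
        rw [mul_comm]
        congr 2
        have := Real.pi_pos
        field_simp
      rw [e1]
      ring
    · rw [indicator_of_notMem hτ, indicator_of_notMem hτ, smul_zero]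
  rw [← h4] at h3
  have h5 := (Complex.continuous_re.tendsto 0).comp h3
  rw [Complex.zero_re] at h5
  exact h5

theorem half_step (l : ℝ) :
    Tendsto (fun y : ℝ => ∫ v : ℝ, (Ici (0 : ℝ)).indicator (fun _ => (1 : ℝ)) (y - l⁻¹ * v) * fk v)
      atTop (𝓝 (∫ v, fk v)) := by
  apply tendsto_integral_filter_of_dominated_convergence fk
  · refine Eventually.of_forall fun y => ?_
    apply AEStronglyMeasurable.mul _ continuous_fk.aestronglyMeasurable
    have : Measurable (fun v : ℝ => (Ici (0 : ℝ)).indicator (fun _ => (1 : ℝ)) (y - l⁻¹ * v)) :=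
      (measurable_const.indicator measurableSet_Ici).comp (by fun_prop)
    exact this.aestronglyMeasurable
  · refine Eventually.of_forall fun y => Eventually.of_forall fun v => ?_
    rw [norm_mul, Real.norm_eq_abs, Real.norm_eq_abs, abs_of_nonneg (fk_nonneg v)]
    have : |(Ici (0 : ℝ)).indicator (fun _ => (1 : ℝ)) (y - l⁻¹ * v)| ≤ 1 := by
      by_cases hv : y - l⁻¹ * v ∈ Ici (0 : ℝ)
      · rw [indicator_of_mem hv]; norm_num
      · rw [indicator_of_notMem hv]; norm_num
    calc _ ≤ 1 * fk v := mul_le_mul_of_nonneg_right this (fk_nonneg v)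
      _ = fk v := one_mul _
  · exact integrable_fk
  · refine Eventually.of_forall fun v => ?_
    apply tendsto_const_nhds.congr'
    filter_upwards [eventually_ge_atTop (l⁻¹ * v)] with y hy
    rw [indicator_of_mem (by rw [mem_Ici]; linarith), one_mul]

theorem conv_integrable (h : TData A B c H) (l y : ℝ) :
    Integrable (fun v : ℝ => A (y - l⁻¹ * v) * fk v) := by
  apply integrable_fk.bdd_mul (c := B)
  · exact (h.meas.comp (by fun_prop : Measurable (fun v : ℝ => y - l⁻¹ * v))).aestronglyMeasurable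
  · refine Eventually.of_forall fun v => ?_
    rw [Real.norm_eq_abs, abs_of_nonneg (h.nonneg _)]
    exact h.le _

theorem dev_integrable (h : TData A B c H) (l y : ℝ) :
    Integrable (fun v : ℝ => dev A c (y - l⁻¹ * v) * fk v) := by
  apply integrable_fk.bdd_mul (c := B + c)
  · exact ((dev_meas h).comp
      (by fun_prop : Measurable (fun v : ℝ => y - l⁻¹ * v))).aestronglyMeasurable
  · refine Eventually.of_forall fun v => ?_
    rw [Real.norm_eq_abs]
    exact abs_dev_le h _

theorem conv_tendsto (h : TData A B c H) {l : ℝ} (hl : 0 < l) :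
    Tendsto (fun y : ℝ => ∫ v : ℝ, A (y - l⁻¹ * v) * fk v) atTop (𝓝 (c * ∫ v, fk v)) := by
  have h1 := (rl_step h hl).add ((half_step l).const_mul c)
  rw [zero_add] at h1
  refine h1.congr fun y => ?_
  rw [← integral_const_mul, ← integral_add (dev_integrable h l y)]
  · congr 1
    funext v
    rcases lt_or_ge (y - l⁻¹ * v) 0 with hu | hu
    · rw [dev_neg hu, h.neg _ hu, indicator_of_notMem (by simpa using hu)]
      ring
    · rw [dev_pos hu, indicator_of_mem (by simpa using hu)]
      ring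
  · apply Integrable.const_mul
    apply integrable_fk.bdd_mul (c := 1)
    · have : Measurable (fun v : ℝ => (Ici (0 : ℝ)).indicator (fun _ => (1 : ℝ)) (y - l⁻¹ * v)) :=
        (measurable_const.indicator measurableSet_Ici).comp (by fun_prop)
      exact this.aestronglyMeasurable
    · refine Eventually.of_forall fun v => ?_
      rw [Real.norm_eq_abs]
      by_cases hv : y - l⁻¹ * v ∈ Ici (0 : ℝ)
      · rw [indicator_of_mem hv]; norm_num
      · rw [indicator_of_notMem hv]; norm_num

theorem kernel_mass {η : ℝ} (hη : 0 < η) : ∃ R : ℝ, 0 < R ∧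
    (∫ v, fk v) - η ≤ ∫ v in Icc (-R) R, fk v := by
  have h1 := intervalIntegral_tendsto_integral (μ := volume) (f := fk) (a := fun R : ℝ => -R)
    (b := fun R : ℝ => R) (l := atTop) integrable_fk tendsto_neg_atTop_atBot tendsto_id
  have h2 := (h1.eventually (lt_mem_nhds (show (∫ v, fk v) - η < ∫ v, fk v by linarith))).and
    (eventually_gt_atTop 0)
  obtain ⟨R, hR1, hR2⟩ := h2.exists
  refine ⟨R, hR2, ?_⟩
  rw [intervalIntegral.integral_of_le (by linarith)] at hR1
  rw [integral_Icc_eq_integral_Ioc]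
  exact hR1.le

theorem upper_step (h : TData A B c H) {δ η : ℝ} (hδ : 0 < δ) (hη : 0 < η) :
    ∀ᶠ y in atTop, A y * Real.exp (-(2 * δ)) * ((∫ v, fk v) - η) ≤ c * (∫ v, fk v) + η := by
  obtain ⟨R, hR, hmass⟩ := kernel_mass hη
  have hl : 0 < R / δ := by positivity
  have h1 := (conv_tendsto h hl).comp (tendsto_atTop_add_const_right atTop δ tendsto_id)
  have h2 := h1.eventually (ge_mem_nhds (show c * (∫ v, fk v) < c * (∫ v, fk v) + η by linarith))
  filter_upwards [h2] with y hy
  simp only [Function.comp, id] at hy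
  refine le_trans ?_ hy
  have h3 : ∫ v in Icc (-R) R, A (y + δ - (R / δ)⁻¹ * v) * fk v ≤
      ∫ v, A (y + δ - (R / δ)⁻¹ * v) * fk v :=
    setIntegral_le_integral (conv_integrable h _ _)
      (Eventually.of_forall fun v => mul_nonneg (h.nonneg _) (fk_nonneg _))
  refine le_trans ?_ h3
  have h4 : A y * Real.exp (-(2 * δ)) * (∫ v in Icc (-R) R, fk v) ≤
      ∫ v in Icc (-R) R, A (y + δ - (R / δ)⁻¹ * v) * fk v := by
    rw [← integral_const_mul]
    apply setIntegral_mono_on (integrable_fk.integrableOn.const_mul _)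
      (conv_integrable h _ _).integrableOn measurableSet_Icc
    intro v hv
    apply mul_le_mul_of_nonneg_right _ (fk_nonneg v)
    have e1 : |(R / δ)⁻¹ * v| ≤ δ := by
      rw [abs_mul, abs_of_pos (by positivity), inv_div, div_mul_eq_mul_div, div_le_iff₀ hR]
      exact mul_le_mul_of_nonneg_left (abs_le.2 ⟨hv.1, hv.2⟩) hδ.le
    have e2 := abs_le.1 e1
    refine le_trans ?_ (h.mono y _ (by linarith))
    apply mul_le_mul_of_nonneg_left _ (h.nonneg y)
    apply Real.exp_le_exp.2
    linarith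
  refine le_trans ?_ h4
  exact mul_le_mul_of_nonneg_left hmass (mul_nonneg (h.nonneg _) (Real.exp_pos _).le)

theorem lower_step (h : TData A B c H) {δ η : ℝ} (hδ : 0 < δ) (hη : 0 < η) :
    ∀ᶠ y in atTop, c * (∫ v, fk v) - η - B * η ≤ A y * Real.exp (2 * δ) * (∫ v, fk v) := by
  obtain ⟨R, hR, hmass⟩ := kernel_mass hη
  have hl : 0 < R / δ := by positivity
  have h1 := (conv_tendsto h hl).comp (tendsto_atTop_add_const_right atTop (-δ) tendsto_id)
  have h2 := h1.eventually (le_mem_nhds (show c * (∫ v, fk v) - η < c * (∫ v, fk v) by linarith))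
  filter_upwards [h2] with y hy
  simp only [Function.comp, id] at hy
  have h3 : ∫ v, A (y + -δ - (R / δ)⁻¹ * v) * fk v =
      (∫ v in Icc (-R) R, A (y + -δ - (R / δ)⁻¹ * v) * fk v) +
      ∫ v in (Icc (-R) R)ᶜ, A (y + -δ - (R / δ)⁻¹ * v) * fk v :=
    (integral_add_compl measurableSet_Icc (conv_integrable h _ _)).symm
  have h5 : ∫ v in Icc (-R) R, A (y + -δ - (R / δ)⁻¹ * v) * fk v ≤
      A y * Real.exp (2 * δ) * (∫ v in Icc (-R) R, fk v) := by
    rw [← integral_const_mul]
    apply setIntegral_mono_on (conv_integrable h _ _).integrableOn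
      (integrable_fk.integrableOn.const_mul _) measurableSet_Icc
    intro v hv
    apply mul_le_mul_of_nonneg_right _ (fk_nonneg v)
    have e1 : |(R / δ)⁻¹ * v| ≤ δ := by
      rw [abs_mul, abs_of_pos (by positivity), inv_div, div_mul_eq_mul_div, div_le_iff₀ hR]
      exact mul_le_mul_of_nonneg_left (abs_le.2 ⟨hv.1, hv.2⟩) hδ.le
    have e2 := abs_le.1 e1
    obtain ⟨x, hx⟩ : ∃ x : ℝ, x = y + -δ - (R / δ)⁻¹ * v := ⟨_, rfl⟩
    have e3 := h.mono x y (by rw [hx]; linarith)
    rw [← le_div_iff₀ (Real.exp_pos _), div_eq_mul_inv, ← Real.exp_neg, neg_neg] at e3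
    rw [← hx]
    refine e3.trans ?_
    apply mul_le_mul_of_nonneg_left _ (h.nonneg y)
    apply Real.exp_le_exp.2
    rw [hx]
    linarith
  have h6 : ∫ v in (Icc (-R) R)ᶜ, A (y + -δ - (R / δ)⁻¹ * v) * fk v ≤
      B * ∫ v in (Icc (-R) R)ᶜ, fk v := by
    rw [← integral_const_mul]
    apply setIntegral_mono_on (conv_integrable h _ _).integrableOn
      (integrable_fk.integrableOn.const_mul _) measurableSet_Icc.compl
    intro v _
    exact mul_le_mul_of_nonneg_right (h.le _) (fk_nonneg v)
  have h7 := integral_add_compl (measurableSet_Icc (a := -R) (b := R)) integrable_fk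
  have h8 : 0 ≤ ∫ v in (Icc (-R) R)ᶜ, fk v :=
    setIntegral_nonneg measurableSet_Icc.compl (fun v _ => fk_nonneg v)
  have h9 : ∫ v in (Icc (-R) R)ᶜ, fk v ≤ η := by linarith
  have h10 := B_nonneg h
  have h11 : B * ∫ v in (Icc (-R) R)ᶜ, fk v ≤ B * η := mul_le_mul_of_nonneg_left h9 h10
  have h12 : A y * Real.exp (2 * δ) * (∫ v in Icc (-R) R, fk v) ≤
      A y * Real.exp (2 * δ) * (∫ v, fk v) :=
    mul_le_mul_of_nonneg_left (by linarith) (mul_nonneg (h.nonneg _) (Real.exp_pos _).le)
  linarith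

/-- The Tauberian theorem. -/
theorem tauber (h : TData A B c H) : Tendsto A atTop (𝓝 c) := by
  have hI := integral_fk_pos
  set J := ∫ v, fk v with hJ
  rw [tendsto_order]
  constructor
  · intro a ha
    -- choose `δ` with `a * exp (2 δ) * J < c J - δ - B δ`
    have h1 : Tendsto (fun δ : ℝ => c * J - δ - B * δ - a * Real.exp (2 * δ) * J) (𝓝[>] 0)
        (𝓝 (c * J - a * J)) := by
      have h2 : Continuous (fun δ : ℝ => c * J - δ - B * δ - a * Real.exp (2 * δ) * J) := by
        fun_prop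
      have h3 := h2.tendsto 0
      simp only [mul_zero, sub_zero, Real.exp_zero, mul_one] at h3
      exact h3.mono_left nhdsWithin_le_nhds
    have h2 := (h1.eventually (lt_mem_nhds (show 0 < c * J - a * J by nlinarith))).and
      (self_mem_nhdsWithin : Ioi (0 : ℝ) ∈ 𝓝[>] 0)
    obtain ⟨δ, hδ1, hδ2⟩ := h2.exists
    filter_upwards [lower_step h hδ2 hδ2] with y hy
    rw [← hJ] at hy
    have h3 : a * (Real.exp (2 * δ) * J) < A y * (Real.exp (2 * δ) * J) := by linarith
    exact lt_of_mul_lt_mul_right h3 (by positivity)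
  · intro a ha
    have h1 : Tendsto (fun δ : ℝ => a * Real.exp (-(2 * δ)) * (J - δ) - (c * J + δ)) (𝓝[>] 0)
        (𝓝 (a * J - c * J)) := by
      have h2 : Continuous (fun δ : ℝ => a * Real.exp (-(2 * δ)) * (J - δ) - (c * J + δ)) := by
        fun_prop
      have h3 := h2.tendsto 0
      simp only [mul_zero, neg_zero, sub_zero, Real.exp_zero, mul_one, add_zero] at h3
      exact h3.mono_left nhdsWithin_le_nhds
    have h2 := ((h1.eventually (lt_mem_nhds (show 0 < a * J - c * J by nlinarith))).and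
      (Ioo_mem_nhdsGT hI : Ioo (0 : ℝ) J ∈ 𝓝[>] 0))
    obtain ⟨δ, hδ1, hδ2⟩ := h2.exists
    filter_upwards [upper_step h hδ2.1 hδ2.1] with y hy
    rw [← hJ] at hy
    have h4 : 0 < J - δ := by linarith [hδ2.2]
    have h3 : A y * (Real.exp (-(2 * δ)) * (J - δ)) < a * (Real.exp (-(2 * δ)) * (J - δ)) := by
      linarith
    exact lt_of_mul_lt_mul_right h3 (by positivity)

end Pool.Agent.Helper64.PNT
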